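import Mathlib
import Pool.Agent.Y316.EV.Stm

/-! (NEG): actions with a continuous character have entropy `-∞`. -/

set_option autoImplicit false
set_option linter.unusedSectionVars false

namespace Pool.Agent.Y379.EV

open MeasureTheory Set Filter Topology Pool.Agent.Y316.PC Pool.Agent.Y316.EV
open scoped ENNReal NNReal

section top

variable {Γ : Type} [Group Γ] [TopologicalSpace Γ] [DiscreteTopology Γ]

theorem cont_fst : Continuous (fun g : GG Γ => g.1) := continuous_fst (X := KK Γ) (Y := Γ)
theorem cont_snd : Continuous (fun g : GG Γ => g.2) := continuous_snd (X := KK Γ) (Y := Γ)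

theorem cont_mk {Z : Type} [TopologicalSpace Z] {f : Z → KK Γ} {g : Z → Γ} (hf : Continuous f)
    (hg : Continuous g) : Continuous (fun z => ((f z, g z) : GG Γ)) := hf.prodMk hg

theorem cont_sh : Continuous (fun z : Γ × KK Γ => sh z.1 z.2) := by
  rw [continuous_prod_of_discrete_left]
  exact fun γ => continuous_sh γ

theorem topGroup : IsTopologicalGroup (GG Γ) where
  continuous_mul := by
    have h1 : Continuous (fun z : GG Γ × GG Γ => z.1.1) := cont_fst.comp continuous_fst
    have h2 : Continuous (fun z : GG Γ × GG Γ => z.1.2) := cont_snd.comp continuous_fst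
    have h3 : Continuous (fun z : GG Γ × GG Γ => z.2.1) := cont_fst.comp continuous_snd
    have h4 : Continuous (fun z : GG Γ × GG Γ => z.2.2) := cont_snd.comp continuous_snd
    have h5 : Continuous (fun z : Γ × Γ => z.1 * z.2) := continuous_of_discreteTopology
    exact cont_mk (h1.add (cont_sh.comp (h2.prodMk h3))) (h5.comp (h2.prodMk h4))
  continuous_inv := by
    have h5 : Continuous (fun z : Γ => z⁻¹) := continuous_of_discreteTopology
    exact cont_mk (cont_sh.comp ((h5.comp cont_snd).prodMk cont_fst.neg)) (h5.comp cont_snd)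

theorem locComp : LocallyCompactSpace (GG Γ) :=
  inferInstanceAs (LocallyCompactSpace (KK Γ × Γ))

theorem t2 : T2Space (GG Γ) := inferInstanceAs (T2Space (KK Γ × Γ))

theorem compact_U (S : Set Γ) (hS : S.Finite) : IsCompact (closure {g : GG Γ | g.2 ∈ S}) := by
  have h1 : IsCompact {g : GG Γ | g.2 ∈ S} := by
    have h2 : IsCompact ((univ : Set (KK Γ)) ×ˢ S) := isCompact_univ.prod hS.isCompact
    have h3 : (((univ : Set (KK Γ)) ×ˢ S) : Set (KK Γ × Γ)) = {g : KK Γ × Γ | g.2 ∈ S} := by
      ext g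
      simp
    rw [h3] at h2
    exact h2
  have := t2 (Γ := Γ)
  exact h1.closure

end top

section meas

variable {V : Type} [MulAction Aff V] [Fintype V] [MeasurableSpace V] [DiscreteMeasurableSpace V]

theorem count_pres (c : Aff) :
    MeasurePreserving (fun v : V => c • v) Measure.count Measure.count := by
  refine ⟨Measurable.of_discrete, ?_⟩
  ext s hs
  rw [Measure.map_apply Measurable.of_discrete hs]
  have h1 : (fun v : V => c • v) ⁻¹' s = (fun v : V => c⁻¹ • v) '' s := by
    ext v
    constructor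
    · intro hv
      exact ⟨c • v, hv, inv_smul_smul c v⟩
    · rintro ⟨w, hw, rfl⟩
      show c • c⁻¹ • w ∈ s
      rwa [smul_inv_smul]
  rw [h1, Measure.count_injective_image (MulAction.injective c⁻¹)]

theorem act_pres (g : GG Aff) :
    MeasurePreserving (act g : KK Aff × V → KK Aff × V) (vol Aff V) (vol Aff V) := by
  have h1 : MeasurePreserving (fun k : KK Aff => g.1 + sh g.2 k) (haarK Aff) (haarK Aff) :=
    (measurePreserving_add_left (haarK Aff) g.1).comp (measurePreserving_sh g.2)
  exact h1.prod (count_pres g.2)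

theorem vol_univ : ((vol Aff V) univ) = (Fintype.card V : ℝ≥0∞) := by
  unfold vol
  rw [← univ_prod_univ, Measure.prod_prod, measure_univ, one_mul, Measure.count_univ]
  simp

theorem int_vol {f : KK Aff × V → ℝ} (hf : Integrable f (vol Aff V)) :
    ∫ q, f q ∂(vol Aff V) = ∑ v, ∫ k, f (k, v) ∂(haarK Aff) := by
  unfold vol at hf ⊢
  rw [integral_prod_symm f hf, integral_count]

theorem integ {α : Type} [MeasurableSpace α] {μ : Measure α} [IsFiniteMeasure μ] {f : α → ℝ}
    (hf : Measurable f) (C : ℝ) (hC : ∀ x, |f x| ≤ C) : Integrable f μ :=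
  Integrable.of_bound hf.aestronglyMeasurable C (Eventually.of_forall hC)

variable {s : KK Aff × V → ℝ} (hs : Measurable s) (hs1 : ∀ q, s q = 1 ∨ s q = -1)

/-- the averages -/
noncomputable def av (s : KK Aff × V → ℝ) (v : V) : ℝ := ∫ k, s (k, v) ∂(haarK Aff)

include hs1 in
theorem abs_s (q : KK Aff × V) : |s q| = 1 := by
  rcases hs1 q with h | h <;> rw [h] <;> norm_num

include hs hs1 in
theorem int_s (v : V) : Integrable (fun k => s (k, v)) (haarK Aff) :=
  integ (hs.comp measurable_prodMk_right) 1 (fun _ => (abs_s hs1 _).le)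

include hs hs1 in
theorem abs_av (v : V) : |av s v| ≤ 1 := by
  refine abs_integral_le_integral_abs.trans ?_
  have h : ∫ k, |s (k, v)| ∂(haarK Aff) = ∫ _k, (1 : ℝ) ∂(haarK Aff) := by
    congr 1
    funext k
    exact abs_s hs1 _
  rw [h]
  simp

include hs hs1 in
theorem av_smul (c : Aff) (v : V) :
    av s (c • v) = ∫ k, s (act (ig c) (k, v)) ∂(haarK Aff) := by
  have h1 : ∀ k : KK Aff, act (ig c : GG Aff) (k, v) = (sh c k, c • v) := by
    intro k
    unfold act ig
    simp
  simp only [h1]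
  have h2 := (measurePreserving_sh (Γ := Aff) c).map_eq
  have h3 : ∫ k, s (k, c • v) ∂((haarK Aff).map (sh c)) = ∫ k, s (sh c k, c • v) ∂(haarK Aff) :=
    integral_map (measurable_sh c).aemeasurable
      (hs.comp measurable_prodMk_right).aestronglyMeasurable
  rw [h2] at h3
  exact h3

include hs hs1 in
theorem stepA (c : Aff) (χ : ℝ) (hχ : |χ| = 1) :
    ∑ v : V, |av s (c • v) - χ * av s v| ≤ ∫ q, |s (act (ig c) q) - χ * s q| ∂(vol Aff V) := by
  have hfin : IsFiniteMeasure (vol Aff V) := by unfold vol; infer_instance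
  have hact : Measurable (act (ig c : GG Aff) : KK Aff × V → KK Aff × V) :=
    (act_pres (ig c)).measurable
  have hm : Measurable (fun q : KK Aff × V => |s (act (ig c) q) - χ * s q|) :=
    ((hs.comp hact).sub (hs.const_mul χ)).abs
  have hb : ∀ q : KK Aff × V, |s (act (ig c) q) - χ * s q| ≤ 2 := by
    intro q
    refine (abs_sub _ _).trans ?_
    rw [abs_mul, hχ, abs_s hs1, abs_s hs1]
    norm_num
  rw [int_vol (integ hm 2 (fun q => by rw [abs_abs]; exact hb q))]
  apply Finset.sum_le_sum
  intro v _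
  have h1 : Integrable (fun k => s (act (ig c) (k, v))) (haarK Aff) :=
    integ ((hs.comp hact).comp measurable_prodMk_right) 1 (fun _ => (abs_s hs1 _).le)
  have h2 : av s (c • v) - χ * av s v =
      ∫ k, (s (act (ig c) (k, v)) - χ * s (k, v)) ∂(haarK Aff) := by
    rw [integral_sub h1 ((int_s hs hs1 v).const_mul χ), integral_const_mul, av_smul hs hs1]
    rfl
  rw [h2]
  exact abs_integral_le_integral_abs

include hs hs1 in
theorem stepB {D : ℝ} (hD : ∀ k' : KK Aff, ∫ q, |s (act (ik k') q) - s q| ∂(vol Aff V) ≤ D) :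
    ∑ v : V, (1 - av s v ^ 2) ≤ D := by
  have hfin : IsFiniteMeasure (vol Aff V) := by unfold vol; infer_instance
  have hact : ∀ k' : KK Aff, ∀ k : KK Aff, ∀ v : V, act (ik k' : GG Aff) (k, v) = (k' + k, v) := by
    intro k' k v
    unfold act ik
    simp
  have hb : ∀ q q' : KK Aff × V, |(|s q - s q'|)| ≤ 2 := by
    intro q q'
    rw [abs_abs]
    refine (abs_sub _ _).trans ?_
    rw [abs_s hs1, abs_s hs1]
    norm_num
  have hmv : ∀ v : V, Measurable (fun z : KK Aff × KK Aff => |s (z.1 + z.2, v) - s (z.2, v)|) := by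
    intro v
    refine ((hs.comp ?_).sub (hs.comp ?_)).abs
    · exact (measurable_fst.add measurable_snd).prodMk measurable_const
    · exact measurable_snd.prodMk measurable_const
  have hiv : ∀ v : V, Integrable (fun z : KK Aff × KK Aff => |s (z.1 + z.2, v) - s (z.2, v)|)
      ((haarK Aff).prod (haarK Aff)) := fun v => integ (hmv v) 2 (fun z => hb _ _)
  -- the bound for every `k'`
  have h1 : ∀ k' : KK Aff, ∑ v : V, ∫ k, |s (k' + k, v) - s (k, v)| ∂(haarK Aff) ≤ D := by
    intro k'
    have hm : Measurable (fun q : KK Aff × V => |s (act (ik k') q) - s q|) :=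
      ((hs.comp (act_pres (ik k')).measurable).sub hs).abs
    have h2 := hD k'
    rw [int_vol (integ hm 2 (fun q => hb _ _))] at h2
    simpa only [hact] using h2
  have h2 : ∫ k', ∑ v : V, ∫ k, |s (k' + k, v) - s (k, v)| ∂(haarK Aff) ∂(haarK Aff) ≤ D := by
    have h3 : ∫ k', ∑ v : V, ∫ k, |s (k' + k, v) - s (k, v)| ∂(haarK Aff) ∂(haarK Aff) ≤
        ∫ _k', D ∂(haarK Aff) := by
      refine integral_mono ?_ (integrable_const _) h1
      exact integrable_finsetSum _ fun v _ => (hiv v).integral_prod_left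
    simpa using h3
  rw [integral_finsetSum _ fun v _ => (hiv v).integral_prod_left] at h2
  refine le_trans (le_of_eq ?_) h2
  apply Finset.sum_congr rfl
  intro v _
  rw [integral_integral_swap (f := fun k' k => |s (k' + k, v) - s (k, v)|) (hiv v)]
  have h4 : ∀ k : KK Aff, ∫ k', |s (k' + k, v) - s (k, v)| ∂(haarK Aff) =
      1 - av s v * s (k, v) := by
    intro k
    have h5 : ∫ k', |s (k' + k, v) - s (k, v)| ∂(haarK Aff) =
        ∫ k', |s (k', v) - s (k, v)| ∂(haarK Aff) := by
      have h6 := integral_add_left_eq_self (μ := haarK Aff) (fun k' => |s (k', v) - s (k, v)|) k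
      rw [← h6]
      congr 1
      funext k'
      rw [add_comm]
    rw [h5]
    have h7 : ∀ k' : KK Aff, |s (k', v) - s (k, v)| = 1 - s (k', v) * s (k, v) := by
      intro k'
      rcases hs1 (k', v) with h | h <;> rcases hs1 (k, v) with h' | h' <;> rw [h, h'] <;> norm_num
    simp only [h7]
    rw [integral_sub (integrable_const _) ((int_s hs hs1 v).mul_const _), integral_mul_const]
    simp [av]
  simp only [h4]
  rw [integral_sub (integrable_const _) ((int_s hs hs1 v).const_mul _), integral_const_mul]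
  have h8 : ∫ k, s (k, v) ∂(haarK Aff) = av s v := rfl
  rw [h8]
  simp [sq]

end meas

theorem no_map (h1 : S_RELT) {n : ℕ} [NeZero n] {s : KK Aff × Tor n → ℝ} (hs : Measurable s)
    (hs1 : ∀ q, s q = 1 ∨ s q = -1)
    (hk : ∀ k' : KK Aff, ∫ q, |s (act (ik k') q) - s q| ∂(vol Aff (Tor n)) ≤
      (1 / 1000000) * Fintype.card (Tor n))
    (ht : ∀ i, ∫ q, |s (act (ig (tr i)) q) - 1 * s q| ∂(vol Aff (Tor n)) ≤
      (1 / 1000000) * Fintype.card (Tor n))
    (he : ∀ i, ∫ q, |s (act (ig (el i)) q) - (-1) * s q| ∂(vol Aff (Tor n)) ≤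
      (1 / 1000000) * Fintype.card (Tor n)) : False := by
  classical
  set N : ℝ := (Fintype.card (Tor n) : ℝ) with hN
  have hcard : N = (n : ℝ) ^ 2 := by
    have h2 : Fintype.card (Fin 2 → ZMod n) = n ^ 2 := by
      rw [Fintype.card_fun, ZMod.card, Fintype.card_fin]
    have h3 : Fintype.card (Tor n) = n ^ 2 := h2
    rw [hN, h3]
    push_cast
    rfl
  have hn1 : (1 : ℝ) ≤ n := by
    exact_mod_cast Nat.one_le_iff_ne_zero.2 (NeZero.ne n)
  have hN1 : 1 ≤ N := by rw [hcard]; nlinarith
  set F : Tor n → ℝ := av s with hF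
  have hF1 : ∀ v, |F v| ≤ 1 := fun v => abs_av hs hs1 v
  have hB := stepB (V := Tor n) hs hs1 hk
  rw [Finset.sum_sub_distrib] at hB
  simp only [Finset.sum_const, Finset.card_univ, nsmul_eq_mul, mul_one] at hB
  set Q : ℝ := ∑ v, F v ^ 2 with hQ
  have hQ1 : (1 - 1 / 1000000) * N ≤ Q := by
    have : N - Q ≤ 1 / 1000000 * N := hB
    linarith
  have hsq : ∀ (c : Aff) (χ : ℝ), |χ| = 1 →
      (∫ q, |s (act (ig c) q) - χ * s q| ∂(vol Aff (Tor n)) ≤ (1 / 1000000) * N) →
      ∑ v : Tor n, (F (c • v) - χ * F v) ^ 2 ≤ (4 / 1000000) * Q := by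
    intro c χ hχ hc
    have h2 := stepA (V := Tor n) hs hs1 c χ hχ
    have h3 : ∑ v : Tor n, (F (c • v) - χ * F v) ^ 2 ≤
        ∑ v : Tor n, 2 * |F (c • v) - χ * F v| := by
      apply Finset.sum_le_sum
      intro v _
      have h4 : |F (c • v) - χ * F v| ≤ 2 := by
        refine (abs_sub _ _).trans ?_
        rw [abs_mul, hχ]
        linarith [hF1 (c • v), hF1 v]
      rw [← sq_abs]
      nlinarith [abs_nonneg (F (c • v) - χ * F v)]
    rw [← Finset.mul_sum] at h3
    have h4 : ∑ v : Tor n, |F (c • v) - χ * F v| ≤ (1 / 1000000) * N := h2.trans hc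
    nlinarith
  have hrel := h1 n F (4 / 1000000) (fun _ => -1) (by norm_num) (by intro i; norm_num)
    (by
      intro i
      have h2 := hsq (tr i) 1 (by norm_num) (ht i)
      refine le_trans (le_of_eq ?_) h2
      apply Finset.sum_congr rfl
      intro v _
      rw [tr_smul, one_mul]
      rfl)
    (by
      have h2 := hsq (el 0) (-1) (by norm_num) (he 0)
      refine le_trans (le_of_eq ?_) h2
      apply Finset.sum_congr rfl
      intro v _
      rw [el_zero_smul])
    (by
      have h2 := hsq (el 1) (-1) (by norm_num) (he 1)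
      refine le_trans (le_of_eq ?_) h2
      apply Finset.sum_congr rfl
      intro v _
      rw [el_one_smul])
  have hsqrt : Real.sqrt (4 / 1000000) = 2 / 1000 := by
    rw [show (4 / 1000000 : ℝ) = (2 / 1000) ^ 2 by norm_num]
    exact Real.sqrt_sq (by norm_num)
  rw [hsqrt, ← hcard] at hrel
  have hrel' : (1 - 50 * (2 / 1000)) * (N * Q) ≤ (∑ v : Tor n, F v) ^ 2 := hrel
  have hsum : |2 * ∑ v : Tor n, F v| ≤ (1 / 1000000) * N := by
    have h2 := (stepA (V := Tor n) hs hs1 (el 0) (-1) (by norm_num)).trans (he 0)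
    have h3 : ∑ v : Tor n, F (el 0 • v) = ∑ v : Tor n, F v :=
      Fintype.sum_equiv (MulAction.toPerm (el 0)) _ _ (fun v => rfl)
    have h4 : 2 * ∑ v : Tor n, F v = ∑ v : Tor n, (F (el 0 • v) - (-1) * F v) := by
      rw [Finset.sum_sub_distrib, h3, ← Finset.mul_sum]
      ring
    rw [h4]
    exact (Finset.abs_sum_le_sum_abs _ _).trans h2
  have hS2 : (∑ v : Tor n, F v) ^ 2 ≤ (1 / 1000000 * N) ^ 2 := by
    rw [abs_mul, abs_two] at hsum
    rw [← sq_abs]
    have h5 : 0 ≤ |∑ v : Tor n, F v| := abs_nonneg _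
    apply pow_le_pow_left₀ h5
    linarith
  have hNQ : N * ((1 - 1 / 1000000) * N) ≤ N * Q := mul_le_mul_of_nonneg_left hQ1 (by linarith)
  nlinarith

theorem neg (h1 : S_RELT) (h2 : S_PSD) : S_NEG := by
  classical
  intro p _ X _ _ _ _ _ _ μ ρ σ hgen hσc hσ1 hσ2
  have htg := topGroup (Γ := Aff)
  have hlc := locComp (Γ := Aff)
  set S : Set Aff := insert 1 (range tr ∪ range el) with hS
  have hSf : S.Finite := ((finite_range tr).union (finite_range el)).insert 1
  obtain ⟨U', δ', O', hU'o, hU'c, hδ', hO', hμ, hmain⟩ := h2 (GG Aff) X μ ρ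
    (fun x y => |σ x - σ y|) hgen (fun x => by simp) (fun x y => abs_nonneg _)
    ⟨2, fun x y => by
      refine (abs_sub _ _).trans ?_
      have h3 : ∀ x, |σ x| = 1 := fun x => by
        rcases hσ1 x with h | h <;> rw [h] <;> norm_num
      rw [h3, h3]
      norm_num⟩
    ((hσc.comp continuous_fst).sub (hσc.comp continuous_snd)).abs
    {g : GG Aff | g.2 ∈ S} (compact_U S hSf) (1 / 1000000) (by norm_num)
  have hempty : ∀ i, Map (mod Aff (Tor (p i))) (vol Aff (Tor (p i))) ρ U' δ' O' = ∅ := by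
    intro i
    rw [eq_empty_iff_forall_notMem]
    intro φ hφ
    have hfin : IsFiniteMeasure (vol Aff (Tor (p i))) := by unfold vol; infer_instance
    have hcard0 : (0 : ℝ) < Fintype.card (Tor (p i)) := by
      have : 0 < Fintype.card (Tor (p i)) :=
        Fintype.card_pos_iff.2 ⟨(0 : Tor (p i))⟩
      exact_mod_cast this
    have hv0 : (vol Aff (Tor (p i))) univ ≠ 0 := by
      rw [vol_univ]
      exact_mod_cast hcard0.ne'
    have hvr : ((vol Aff (Tor (p i))) univ).toReal = Fintype.card (Tor (p i)) := by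
      rw [vol_univ]
      simp
    have h3 := hmain (KK Aff × Tor (p i)) (mod Aff (Tor (p i))) (vol Aff (Tor (p i))) hv0 rfl
      (fun g => act_pres g) φ hφ
    have hsm : Measurable (fun q => σ (φ q)) := hσc.measurable.comp hφ.1
    have hall : ∀ g : GG Aff, g.2 ∈ S →
        ∫ q, |σ (φ (act g q)) - (((chi g.2 : ℤˣ) : ℤ) : ℝ) * σ (φ q)| ∂(vol Aff (Tor (p i))) ≤
          (1 / 1000000) * Fintype.card (Tor (p i)) := by
      intro g hg
      have h4 := h3 g hg
      rw [hvr, div_lt_iff₀ hcard0] at h4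
      simp only [hσ2] at h4
      exact h4.le
    refine no_map h1 (n := p i) (s := fun q => σ (φ q)) hsm (fun q => hσ1 _) ?_ ?_ ?_
    · intro k'
      have h4 := hall (ik k') (mem_insert _ _)
      have h5 : chi (ik k' : GG Aff).2 = 1 := map_one chi
      rw [h5] at h4
      simpa using h4
    · intro j
      have h4 := hall (ig (tr j)) (mem_insert_of_mem _ (Or.inl ⟨j, rfl⟩))
      have h5 : chi (ig (tr j) : GG Aff).2 = 1 := chi_tr j
      rw [h5] at h4
      simpa using h4
    · intro j
      have h4 := hall (ig (el j)) (mem_insert_of_mem _ (Or.inr ⟨j, rfl⟩))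
      have h5 : chi (ig (el j) : GG Aff).2 = -1 := chi_el j
      rw [h5] at h4
      simpa using h4
  unfold soficEntropy
  refine le_antisymm ?_ bot_le
  refine iSup₂_le fun e he => ?_
  refine iInf₂_le_of_le O' ⟨hO', hμ⟩ ?_
  refine iInf₂_le_of_le U' ⟨hU'o, hU'c⟩ ?_
  refine iInf₂_le_of_le δ' hδ' ?_
  refine limsup_le_of_le (by isBoundedDefault) (Eventually.of_forall fun i => ?_)
  have hcard0 : (0 : ℝ) < Fintype.card (Tor (p i)) := by
    have : 0 < Fintype.card (Tor (p i)) :=
      Fintype.card_pos_iff.2 ⟨(0 : Tor (p i))⟩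
    exact_mod_cast this
  have hvr : ((vol Aff (Tor (p i))) univ).toReal = Fintype.card (Tor (p i)) := by
    rw [vol_univ]
    simp
  rw [hempty i]
  have hls : logSep (vol Aff (Tor (p i))) ρ e (∅ : Set (KK Aff × Tor (p i) → X)) = ⊥ := by
    unfold logSep
    refine le_antisymm (iSup₂_le ?_) bot_le
    rintro s ⟨h3, h4, -⟩
    obtain ⟨x, hx⟩ := h3
    exact absurd (h4 hx) (notMem_empty x)
  rw [hls, hvr, EReal.bot_div_of_pos_ne_top (by exact_mod_cast hcard0) (EReal.coe_ne_top _)]

end Pool.Agent.Y379.EV
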